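import Pool.Agent.H55.BQ.DAT
import Pool.Agent.H55.BPL.ASM

/-!
# Biplanar drawings (MP_bacf0e_co), second part: assembly (helper55)
-/

set_option autoImplicit false

open Finset

namespace Pool.Agent.H55.BQ

open Pool.Agent.H55.BP Pool.Agent.H55.BPL

/-- an optimal and self-complementary biplanar drawing of `K_{n,m}` with `v` crossings -/
def QV (n m v : ℕ) : Prop :=
  ∃ B : Biplanar (K n m), B.Optimal ∧ B.SelfComplementary ∧ B.crossings = v

theorem QV.q1 {n m v : ℕ} (h : QV n m v) : Q1 n m := by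
  obtain ⟨B, h1, h2, -⟩ := h
  exact ⟨B, h1, h2⟩

/-- the drawing of one half gives the biplanar drawing -/
theorem upp (n m k : ℕ) (G : SimpleGraph (Fin n ⊕ Fin m)) (φ : (Fin n ⊕ Fin m) ≃ (Fin n ⊕ Fin m))
    (D : Drawing G) (hG : G ≤ K n m) (hK : ∀ u v, (K n m).Adj u v ↔ (K n m).Adj (φ u) (φ v))
    (hφ : ∀ u v, (K n m).Adj u v → (G.Adj u v ↔ ¬ G.Adj (φ u) (φ v))) (hk : D.crossings ≤ k)
    (hopt : ∀ B : Biplanar (K n m), 2 * k ≤ B.crossings) : QV n m (2 * k) := by
  have h : ∀ u v, G.Adj u v ↔ ((K n m) \ G).Adj (φ u) (φ v) := by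
    intro u v
    rw [SimpleGraph.sdiff_adj]
    constructor
    · intro huv
      have h1 := hG huv
      exact ⟨(hK u v).1 h1, (hφ u v h1).1 huv⟩
    · rintro ⟨h1, h2⟩
      have h3 := (hK u v).2 h1
      exact (hφ u v h3).2 h2
  let B : Biplanar (K n m) :=
    { G₁ := G
      G₂ := (K n m) \ G
      sup := by
        ext u v
        rw [SimpleGraph.sup_adj, SimpleGraph.sdiff_adj]
        constructor
        · rintro (h1 | h1)
          · exact hG h1
          · exact h1.1
        · intro h1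
          by_cases h2 : G.Adj u v
          · exact Or.inl h2
          · exact Or.inr ⟨h1, h2⟩
      disj := disjoint_sdiff_self_right
      D₁ := D
      D₂ := relabel φ h D }
  have h1 : B.crossings = D.crossings + D.crossings := by
    change D.crossings + (relabel φ h D).crossings = _
    rw [relabel_crossings]
  have h2 := hopt B
  refine ⟨B, ?_, ⟨φ, h, ?_, ?_⟩, by omega⟩
  · intro B'
    have h3 := hopt B'
    omega
  · intro v
    change D.pt (φ.symm (φ v)) = D.pt v
    rw [Equiv.symm_apply_apply]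
  · intro u v _ t _
    change D.arc (φ.symm (φ u)) (φ.symm (φ v)) t = D.arc u v t
    rw [Equiv.symm_apply_apply, Equiv.symm_apply_apply]

/-- the same with permutations of the two classes -/
theorem qv {n m : ℕ} (A : Fin n → Fin m → Bool) (σ : Fin n ≃ Fin n) (τ : Fin m ≃ Fin m)
    (h : ∀ i j, A (σ i) (τ j) = !A i j) (D : Drawing (BG A)) (k : ℕ) (hk : D.crossings ≤ k)
    (hopt : ∀ B : Biplanar (K n m), 2 * k ≤ B.crossings) : QV n m (2 * k) := by
  obtain ⟨h1, h2⟩ := antim A σ τ h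
  exact upp n m k (BG A) _ D (BG_le _) h1 h2 hk hopt

/-- complementary pairs of types -/
theorem pairs_compl {n p : ℕ} [NeZero p] (N : Fin p → Fin n → Bool) (hp : p % 2 = 0)
    (hN : ∀ k : Fin p, k.val % 2 = 0 → ∀ i, N (ty p (k.val + 1)) i = !N k i) (m : ℕ) (hm : Even m)
    (i : Fin n) (j : Fin m) : N (ty p (swp m hm j).val) i = !N (ty p j.val) i := by
  have key : ∀ j : ℕ, j % 2 = 0 → N (ty p (j + 1)) i = !N (ty p j) i := by
    intro j hj
    have h1 : (ty p j).val = j % p := rfl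
    have h2 : (ty p j).val % 2 = 0 := by
      rw [h1, Nat.mod_mod_of_dvd _ (Nat.dvd_of_mod_eq_zero hp)]
      exact hj
    rw [← hN (ty p j) h2]
    congr 1
    ext
    change (j + 1) % p = (j % p + 1) % p
    simp [Nat.add_mod]
  rw [swp_val]
  split_ifs with h
  · exact key _ h
  · have h1 := key (j.val - 1) (by omega)
    rw [show j.val - 1 + 1 = j.val by omega] at h1
    rw [h1, Bool.not_not]

theorem tt_pairs (p m c : ℕ) [NeZero p] :
    (∑ x ∈ (univ : Finset (Fin m × Fin m)).filter fun x => x.1 < x.2,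
      if ty p x.1.val = ty p x.2.val then c else 0) = c * tt p m := by
  rw [← Finset.sum_filter, Finset.filter_filter, Finset.sum_const, smul_eq_mul, mul_comm]
  congr 2
  apply Finset.filter_congr
  intro x _
  have h1 : ty p x.1.val = ty p x.2.val ↔ x.1.val % p = x.2.val % p := by
    rw [Fin.ext_iff]
    exact Iff.rfl
  rw [h1]

theorem tt_zero (α : ℕ) : tt α 0 = 0 := by
  unfold tt
  rw [Finset.card_eq_zero]
  ext x
  exact x.1.elim0

/-- the values of the biplanar crossing numbers -/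
def T_VAL : Prop := ∀ n m : ℕ, 4 ≤ n → n ≤ 8 → Even (n * m) →
  QV n m (2 * tt (2 * n - 4) (m * (n - 4) / 2))

theorem val_four (hP : T_PRM) (m : ℕ) : QV 4 m (2 * tt 4 (m * 0 / 2)) := by
  obtain ⟨D, hD⟩ := hP 4 1 t4 ∅ t4_ok m
  have h0 : (same 1 m ∅).card = 0 := by simp [same]
  rw [show m * 0 / 2 = 0 by simp, tt_zero]
  refine qv (t4.adj m) ((Equiv.swap 0 2).trans (Equiv.swap 1 3)) (Equiv.refl _) ?_ D 0
    (by omega) fun B => by omega
  intro i j
  have : ty 1 j.val = 0 := Subsingleton.elim _ _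
  simp only [Tmpl.adj, Equiv.refl_apply, this]
  revert i
  decide

theorem val_five (hP : T_PRM) (hC : T_CNT) (hL : T_LB) (hT2 : T_TT2) (m : ℕ) (hm : Even m) :
    QV 5 m (2 * tt 6 (m * 1 / 2)) := by
  obtain ⟨D, hD⟩ := hP 5 12 t5 _ t5_ok m
  have h1 := hC m hm
  obtain ⟨q, hq⟩ := hm
  have h2 := hT2 6 q (by norm_num)
  have h3 : ((univ : Finset (Fin m × Fin m)).filter fun x => x.1 < x.2 ∧
      x.1.val % 12 = x.2.val % 12).card = tt 12 m := rfl
  rw [h3] at h1
  have h4 : m * 1 / 2 = q := by omega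
  have h5 : tt (2 * 6) (2 * q) = tt 12 m := by
    rw [hq, two_mul q]
  rw [h4]
  refine qv (t5.adj m) (Equiv.refl _) (swp m ⟨q, hq⟩) ?_ D _ (by omega) fun B => ?_
  · intro i j
    exact pairs_compl t5.N rfl (by decide) m ⟨q, hq⟩ i j
  · exact hL 5 m q B (by norm_num) (by omega)

theorem val_six (hP : T_PR2) (hL : T_LB) (m : ℕ) : QV 6 m (2 * tt 8 (m * 2 / 2)) := by
  obtain ⟨D, hD⟩ := hP 6 8 t6 t6_ok m
  have h1 : (∑ x ∈ (univ : Finset (Fin m × Fin m)).filter fun x => x.1 < x.2,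
      ctb t6 (ty 8 x.1.val) (ty 8 x.2.val)) = 1 * tt 8 m := by
    rw [← tt_pairs]
    exact Finset.sum_congr rfl fun x _ => t6_ctb _ _
  rw [h1, one_mul] at hD
  rw [show m * 2 / 2 = m by omega]
  refine qv (t6.adj m) (((Equiv.swap 0 1).trans (Equiv.swap 2 3)).trans (Equiv.swap 4 5))
    (Equiv.refl _) ?_ D _ hD fun B => ?_
  · intro i j
    have key : ∀ (k : Fin 8) (i : Fin 6),
        t6.N k ((((Equiv.swap 0 1).trans (Equiv.swap 2 3)).trans (Equiv.swap 4 5)) i) =
          !t6.N k i := by decide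
    exact key _ i
  · exact hL 6 m m B (by norm_num) (by omega)

theorem val_seven (hP : T_PR3) (hS : T_PSM) (hL : T_LB) (m : ℕ) (hm : Even m) :
    QV 7 m (2 * tt 10 (m * 3 / 2)) := by
  obtain ⟨q, hq⟩ := hm
  obtain rfl : m = 2 * q := by omega
  obtain ⟨D, hD⟩ := hP 7 20 t7 t7_ok (2 * q)
  have h1 := hS (fun x y => ctb3 t7 (ty 20 x) (ty 20 y))
    (fun x y => by
      have : ty 20 (x + 20) = ty 20 x := by
        ext
        change (x + 20) % 20 = x % 20
        omega
      simp only [this])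
    (fun x y => by
      have : ty 20 (y + 20) = ty 20 y := by
        ext
        change (y + 20) % 20 = y % 20
        omega
      simp only [this])
    (by decide +kernel) (by decide +kernel) q
  rw [h1] at hD
  rw [show 2 * q * 3 / 2 = 3 * q by omega]
  refine qv (t7.adj (2 * q)) (Equiv.refl _) (swp (2 * q) ⟨q, hq⟩) ?_ D _ hD fun B => ?_
  · intro i j
    exact pairs_compl t7.N rfl (by decide) (2 * q) ⟨q, hq⟩ i j
  · exact hL 7 (2 * q) (3 * q) B (by norm_num) (by omega)

theorem val_eight (hP : T_PR2) (hL : T_LB) (hT2 : T_TT2) (m : ℕ) :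
    QV 8 m (2 * tt 12 (m * 4 / 2)) := by
  obtain ⟨D, hD⟩ := hP 8 6 t8 t8_ok m
  have h1 : (∑ x ∈ (univ : Finset (Fin m × Fin m)).filter fun x => x.1 < x.2,
      ctb t8 (ty 6 x.1.val) (ty 6 x.2.val)) = 2 * tt 6 m := by
    rw [← tt_pairs]
    exact Finset.sum_congr rfl fun x _ => t8_ctb _ _
  rw [h1, hT2 6 m (by norm_num)] at hD
  rw [show m * 4 / 2 = 2 * m by omega]
  refine qv (t8.adj m) Fin.revPerm (Equiv.refl _) ?_ D _ hD fun B => ?_
  · intro i j
    have key : ∀ (k : Fin 6) (i : Fin 8), t8.N k (Fin.revPerm i) = !t8.N k i := by decide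
    exact key _ i
  · exact hL 8 m (2 * m) B (by norm_num) (by omega)

theorem val_all (hP : T_PRM) (hC : T_CNT) (hP2 : T_PR2) (hP3 : T_PR3) (hS : T_PSM) (hL : T_LB)
    (hT2 : T_TT2) : T_VAL := by
  intro n m h4 h8 h
  rw [Nat.even_mul] at h
  interval_cases n
  · exact val_four hP m
  · exact val_five hP hC hL hT2 m (h.resolve_left (by decide))
  · exact val_six hP2 hL m
  · exact val_seven hP3 hS hL m (h.resolve_left (by decide))
  · exact val_eight hP2 hL hT2 m

/-- the main theorem, from the targets -/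
theorem main_eight (hP : T_PRM) (hT : T_TUR) (hC : T_CNT) (hV : T_VAL) (n m : ℕ) (hn : 1 ≤ n)
    (hm : 1 ≤ m) (h8 : min n m ≤ 8) (h : Even (n * m)) : Q1 n m := by
  have key : ∀ n m : ℕ, 1 ≤ n → n ≤ 8 → Even (n * m) → Q1 n m := by
    intro n m hn h8 h
    by_cases h5 : n ≤ 5
    · exact main_le hP hT hC n m hn h5 h
    · exact (hV n m (by omega) h8 h).q1
  rcases min_le_iff.1 h8 with h8 | h8
  · exact key n m hn h8 h
  · exact pf_SWP m n (key m n hm h8 (by rwa [mul_comm]))

end Pool.Agent.H55.BQ
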