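import Pool.Agent.H55.BQ.Sph

/-!
# Biplanar drawings (MP_bacf0e_co), second part: the templates for six, seven and eight white
vertices (helper55)
-/

set_option autoImplicit false

open Finset Pool.Agent.H55.BP

namespace Pool.Agent.H55.BQ

/-- the template for `K_{6,m}`: the black points are adjacent to one point of each of the pairs
`{0, 1}`, `{2, 3}`, `{4, 5}` -/
def t6 : Tmpl 6 8 where
  w := ![(422, 2421), (2643, 2936), (2335, 2535), (1952, 9), (2089, 1077), (173, 3171)]
  b := ![(1027, 1728), (993, 2945), (1407, 871), (76, 1652), (2138, 1990), (2415, 2658),
    (2264, 2142), (3773, 2991)]
  N := ![![true, false, true, false, true, false],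
    ![true, false, true, false, false, true],
    ![true, false, false, true, true, false],
    ![true, false, false, true, false, true],
    ![false, true, true, false, true, false],
    ![false, true, true, false, false, true],
    ![false, true, false, true, true, false],
    ![false, true, false, true, false, true]]

/-- the template for `K_{8,m}`: the faces of the cube -/
def t8 : Tmpl 8 6 where
  w := ![(1663, 1891), (1582, 2821), (814, 1264), (564, 3623), (1217, 1361), (3394, 1425),
    (1632, 924), (2949, 109)]
  b := ![(1024, 1279), (3990, 2652), (3245, 1763), (488, 1263), (1129, 2350), (2198, 1000)]
  N := ![![true, false, true, false, true, false, true, false],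
    ![false, true, false, true, false, true, false, true],
    ![true, true, false, false, true, true, false, false],
    ![false, false, true, true, false, false, true, true],
    ![true, true, true, true, false, false, false, false],
    ![false, false, false, false, true, true, true, true]]

/-- the geodesic template for `K_{7,m}`, `m` even -/
def t7 : Tmpl3 7 20 where
  w := ![(-60, 114, 369), (71, -137, -358), (-105, 405, -123), (-356, -19, -37), (-143, -350, 76),
    (295, -181, 99), (284, 250, -21)]
  b := ![(-303, 260, 87), (271, -207, -220), (81, -238, 309), (6, 174, -334),
    (-256, -247, -187), (175, 258, 262), (-285, -140, 208), (287, 91, -270),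
    (263, 128, 255), (-217, -96, -320), (120, -362, -73), (-107, 377, 141),
    (156, 244, -257), (-142, -189, 327), (29, 388, 98), (-29, -315, -206),
    (-249, 173, -268), (199, -24, 376), (364, -61, -174), (-325, 53, 221)]
  e := ![(1, -1, -1), (0, 0, 1), (0, 1, 1), (1, 0, 0), (1, -1, 1), (0, 1, 1),
    (1, 1, 0), (1, -1, -1), (0, 1, 0), (1, -1, -1), (0, 0, 1), (1, -1, 1),
    (1, 0, -1), (1, 1, 1), (1, 1, -1), (1, 0, 0), (1, 1, -1), (0, 1, 1),
    (0, 1, 1), (1, -1, 0)]
  N := ![![true, false, true, true, false, false, false],
    ![false, true, false, false, true, true, true],
    ![true, false, false, false, true, true, false],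
    ![false, true, true, true, false, false, true],
    ![false, true, false, true, true, false, false],
    ![true, false, true, false, false, true, true],
    ![true, false, false, true, true, false, false],
    ![false, true, true, false, false, true, true],
    ![true, false, false, false, false, true, true],
    ![false, true, true, true, true, false, false],
    ![false, true, false, false, true, true, false],
    ![true, false, true, true, false, false, true],
    ![false, true, true, false, false, false, true],
    ![true, false, false, true, true, true, false],
    ![true, false, true, false, false, false, true],
    ![false, true, false, true, true, true, false],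
    ![false, true, true, true, false, false, false],
    ![true, false, false, false, true, true, true],
    ![false, true, false, false, false, true, true],
    ![true, false, true, true, true, false, false]]

theorem t6_ok : OkT t6 where
  ww := by decide +kernel
  wb := by decide +kernel
  bb := by decide +kernel
  ow := by decide +kernel
  ob := by decide +kernel

theorem t6_ctb : ∀ k l, ctb t6 k l = if k = l then 1 else 0 := by decide +kernel

theorem t8_ok : OkT t8 where
  ww := by decide +kernel
  wb := by decide +kernel
  bb := by decide +kernel
  ow := by decide +kernel
  ob := by decide +kernel

theorem t8_ctb : ∀ k l, ctb t8 k l = if k = l then 2 else 0 := by decide +kernel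

theorem t7_ok : OkT3 t7 where
  wz := by decide +kernel
  ww := by decide +kernel
  nb := by decide +kernel
  sd := by decide +kernel
  op := by decide +kernel
  ow := by decide +kernel
  ob := by decide +kernel

end Pool.Agent.H55.BQ
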