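import Pool.Agent.H55.BP.Targets

/-!
# Biplanar drawings (MP_bacf0e_co), second part: definitions (helper55)

The lower bound for drawings of bipartite graphs with `n` white vertices: the white vertices are
the integers `0, ..., n - 1` on the real line, the two half planes are glued along the `n` sides
`(0, 1), ..., (n - 2, n - 1)` and the outer one (number `n - 1`, through infinity). The universal
cover of the sphere minus the white vertices is a tree of half planes (`LT`). The edges of the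
drawing are replaced by fine sequences of points which end with a spiral around the white vertex.
-/

set_option autoImplicit false

open Finset Pool.Agent.H55.BP

namespace Pool.Agent.H55.BQ

/-! ### Counting -/

/-- the number of pairs `a < b < s` with `a = b` modulo `α`: the number of pairs of equal colours if
`s` objects are coloured with `α` colours as evenly as possible -/
def tt (α s : ℕ) : ℕ :=
  ((univ : Finset (Fin s × Fin s)).filter fun x => x.1 < x.2 ∧ x.1.val % α = x.2.val % α).card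

/-! ### The tree of half planes -/

/-- The `n`-regular tree with edges labelled by `Fin n` (every vertex `c` has the neighbours
`r i c`), its bipartition `par`, and the direction `dir c e` (first label on the way from `c` to
`e`, `none` if `c = e`). -/
structure LT (n : ℕ) where
  V : Type
  r : Fin n → V → V
  rr : ∀ i c, r i (r i c) = c
  par : V → Bool
  par_r : ∀ i c, par (r i c) = !par c
  o : V
  par_o : par o = true
  conn : ∀ c e, ∃ l : List (Fin n), l.foldr r c = e
  hom : ∀ c e, ∃ h : V → V, (∀ i x, h (r i x) = r i (h x)) ∧ h c = e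
  dir : V → V → Option (Fin n)
  dir_none : ∀ c e, dir c e = none ↔ c = e
  dir_r : ∀ i c, dir c (r i c) = some i
  dir_step : ∀ c e j, e ≠ c → r j e ≠ c → dir c (r j e) = dir c e
  dir_base : ∀ c e i, dir c e ≠ some i → dir (r i c) e = some i
  dir_base' : ∀ c e i, dir c e = some i → dir (r i c) e ≠ some i

/-- deck transformations which preserve the half planes -/
structure Dk {n : ℕ} (T : LT n) where
  h : T.V → T.V
  hr : ∀ i x, h (T.r i x) = T.r i (h x)
  hp : ∀ x, T.par (h x) = T.par x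

/-- the middle directions: `ρ` is the direction from `g` to one of the `E a`, `a ∈ S`, and smaller and
larger directions from `g` to other ones occur as well -/
def mids {n : ℕ} (T : LT n) {ι : Type} (E : ι → T.V) (S : Finset ι) (g : T.V) : Set (Fin n) :=
  {ρ | ∃ a ∈ S, ∃ b ∈ S, ∃ c ∈ S, ∃ x y, T.dir g (E a) = some x ∧ T.dir g (E b) = some ρ ∧
    T.dir g (E c) = some y ∧ x < ρ ∧ ρ < y}

/-- the branches: all pairs of a vertex and a middle direction there -/
def Br {n : ℕ} (T : LT n) {ι : Type} (E : ι → T.V) (S : Finset ι) : Set (T.V × Fin n) :=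
  {p | p.2 ∈ mids T E S p.1}

/-! ### Walks -/

/-- A walk in the tree: the cells `C 0, ..., C K`; the crossing `x k` lies on the side `s k` between
`C k` and `C (k + 1)`, `k < K`, and `x K` is the end point, in the cell `C K`. -/
structure Walk {n : ℕ} (T : LT n) where
  K : ℕ
  C : ℕ → T.V
  s : ℕ → Fin n
  x : ℕ → ℝ
  step : ∀ k < K, C (k + 1) = T.r (s k) (C k)

/-- `a, b` and `c, d` interleave (if the four numbers are different) -/
noncomputable def ilv (a b c d : ℝ) : Bool :=
  xor (xor (decide (c < a)) (decide (d < a))) (xor (decide (c < b)) (decide (d < b)))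

/-- no pieces of the stars with the legs `L` and `M` in the same cell interleave -/
structure NI {n : ℕ} {T : LT n} (L M : Fin 3 → Walk T) : Prop where
  ll : ∀ a b k l, k < (L a).K → l < (M b).K → (L a).C (k + 1) = (M b).C (l + 1) →
    ilv ((L a).x k) ((L a).x (k + 1)) ((M b).x l) ((M b).x (l + 1)) = false
  lc : ∀ a b b' k, k < (L a).K → (L a).C (k + 1) = (M b).C 0 →
    ilv ((L a).x k) ((L a).x (k + 1)) ((M b).x 0) ((M b').x 0) = false
  cl : ∀ a a' b l, l < (M b).K → (M b).C (l + 1) = (L a).C 0 →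
    ilv ((L a).x 0) ((L a').x 0) ((M b).x l) ((M b).x (l + 1)) = false
  cc : ∀ a a' b b', (L a).C 0 = (M b).C 0 →
    ilv ((L a).x 0) ((L a').x 0) ((M b).x 0) ((M b').x 0) = false

/-- order conditions: `s` (crossings on different sides), and the end points: the end point of the
leg `a` lies just after the side `lam a`, as compared to the crossings of other legs in this cell -/
structure Ord3 {n : ℕ} {T : LT n} (L M : Fin 3 → Walk T) (lam mu : Fin 3 → Fin n) : Prop where
  ss : ∀ a b k l, k < (L a).K → l < (M b).K →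
    ((L a).s k < (M b).s l → (L a).x k < (M b).x l) ∧
    ((M b).s l < (L a).s k → (M b).x l < (L a).x k)
  es : ∀ a b l, a ≠ b → l < (M b).K →
    ((M b).C l = (L a).C (L a).K ∨ (M b).C (l + 1) = (L a).C (L a).K) →
    ((M b).s l ≤ lam a → (M b).x l < (L a).x (L a).K) ∧
    (lam a < (M b).s l → (L a).x (L a).K < (M b).x l)
  se : ∀ a b k, a ≠ b → k < (L a).K →
    ((L a).C k = (M b).C (M b).K ∨ (L a).C (k + 1) = (M b).C (M b).K) →
    ((L a).s k ≤ mu b → (L a).x k < (M b).x (M b).K) ∧
    (mu b < (L a).s k → (M b).x (M b).K < (L a).x k)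
  ee : ∀ a b, a ≠ b → (L a).C (L a).K ≠ (M b).C (M b).K

/-- the sum of `f` over the incidences of the crossings and the end point of a walk with the cells;
a crossing on the side `s` has the value `2 s`, the end point has the value `2 lam + 1` -/
def inc {n : ℕ} {T : LT n} (L : Walk T) (lam : Fin n) (f : T.V → ℕ → ZMod 2) : ZMod 2 :=
  ∑ k ∈ range L.K, (f (L.C k) (2 * (L.s k).val) + f (L.C (k + 1)) (2 * (L.s k).val)) +
    f (L.C L.K) (2 * lam.val + 1)

/-- the same with the real coordinates -/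
noncomputable def incR {n : ℕ} {T : LT n} (L : Walk T) (f : T.V → ℝ → ZMod 2) : ZMod 2 :=
  ∑ k ∈ range L.K, (f (L.C k) (L.x k) + f (L.C (k + 1)) (L.x k)) + f (L.C L.K) (L.x L.K)

open Classical in
/-- the crossing form of two walks, real coordinates -/
noncomputable def XR {n : ℕ} {T : LT n} (L M : Walk T) : ZMod 2 :=
  incR L fun c x => incR M fun c' y => if c' = c ∧ y < x then 1 else 0

open Classical in
/-- the crossing form of two walks, values -/
noncomputable def XV {n : ℕ} {T : LT n} (L M : Walk T) (lam mu : Fin n) : ZMod 2 :=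
  inc L lam fun c x => inc M mu fun c' y => if c' = c ∧ y < x then 1 else 0

/-- the value of an end seen from a cell -/
def dval {n : ℕ} (lam : Fin n) : Option (Fin n) → ℕ
  | some s => 2 * s.val
  | none => 2 * lam.val + 1

/-! ### Sequences of points -/

/-- the half plane of a point -/
noncomputable def sg (z : ℂ) : Bool := decide (0 ≤ z.im)

/-- the point of the real line on the segment from `z` to `w` -/
noncomputable def xr (z w : ℂ) : ℝ := z.re + z.im / (z.im - w.im) * (w.re - z.re)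

/-- the side which contains a real number -/
noncomputable def side (n : ℕ) [NeZero n] (x : ℝ) : Fin n :=
  Fin.ofNat n (if 0 < x ∧ x < (n : ℝ) - 1 then ⌊x⌋₊ else n - 1)

/-- an order preserving coordinate on the circle minus the point just before `0` -/
noncomputable def th (x : ℝ) : ℝ := if 0 < x then x / (1 + x) else 2 + x / (1 - x)

/-- the side on the left of the white vertex `i` (cyclically) -/
def lf (n : ℕ) [NeZero n] (i : Fin n) : Fin n := i - 1

/-- the cells of a sequence of points -/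
noncomputable def cell {n : ℕ} [NeZero n] (T : LT n) (c₀ : T.V) (z : ℕ → ℂ) : ℕ → T.V
  | 0 => c₀
  | k + 1 => if sg (z k) = sg (z (k + 1)) then cell T c₀ z k
      else T.r (side n (xr (z k) (z (k + 1)))) (cell T c₀ z k)

/-- the initial cell of a star with the centre `z` -/
noncomputable def cell0 {n : ℕ} [NeZero n] (T : LT n) (z : ℂ) : T.V :=
  if sg z = true then T.o else T.r 0 T.o

/-- A system of legs `γ e : [0, ∞) → ℂ` of stars (the leg `e` belongs to the star `b e`): it starts at
the centre, stays outside of the discs of radius `rad` around the white vertices `0, ..., n - 1` for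
`0 ≤ t ≤ 1`, hits the circle around the white vertex `wt e` for `t = 1` and spirals into it (half the
radius for every turn) afterwards. -/
structure Sys (n : ℕ) (ι : Type) where
  b : ι → ℕ
  wt : ι → Fin n
  γ : ι → ℝ → ℂ
  rad : ℝ
  rad_pos : 0 < rad
  rad_lt : rad < 1 / 4
  cont : ∀ e, ContinuousOn (γ e) (Set.Ici 0)
  star : ∀ e f, b e = b f → γ e 0 = γ f 0
  far : ∀ e t (i : Fin n), 0 ≤ t → t ≤ 1 → rad ≤ ‖γ e t - (i.val : ℂ)‖
  hit : ∀ e, ‖γ e 1 - ((wt e).val : ℂ)‖ = rad
  spi : ∀ e t, 1 ≤ t → γ e t = ((wt e).val : ℂ) + (γ e 1 - ((wt e).val : ℂ)) *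
    Complex.exp (((t - 1 : ℝ) : ℂ) * (2 * Real.pi * Complex.I - Real.log 2))
  inj : ∀ e s t, 0 ≤ s → 0 ≤ t → γ e s = γ e t → s = t
  dist : ∀ e f, e ≠ f → b e = b f → wt e ≠ wt f
  crs : ∀ e f s t, e ≠ f → 0 ≤ s → 0 ≤ t → γ e s = γ f t →
    (0 < s ∧ s < 1 ∧ 0 < t ∧ t < 1) ∨ (b e = b f ∧ s = 0 ∧ t = 0)

/-- the points of the leg `e`, mesh `1 / N` -/
noncomputable def Sys.z {n : ℕ} {ι : Type} (Y : Sys n ι) (N : ℕ) (e : ι) (k : ℕ) : ℂ :=
  Y.γ e ((k : ℝ) / N)

/-- the cells of the leg `e` -/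
noncomputable def Sys.c {n : ℕ} {ι : Type} [NeZero n] (Y : Sys n ι) (T : LT n) (N : ℕ) (e : ι) :
    ℕ → T.V :=
  cell T (cell0 T (Y.γ e 0)) (Y.z N e)

/-- the two steps at the point number `k` -/
noncomputable def Sys.st {n : ℕ} {ι : Type} (Y : Sys n ι) (N : ℕ) (e : ι) (k : ℕ) : ℝ :=
  ‖Y.z N e (k + 1) - Y.z N e k‖ + ‖Y.z N e k - Y.z N e (k - 1)‖

/-- the crossings of different legs -/
def Sys.recs {n : ℕ} {ι : Type} (Y : Sys n ι) : Set ((ι × ι) × (ℝ × ℝ)) :=
  {p | p.1.1 ≠ p.1.2 ∧ 0 < p.2.1 ∧ p.2.1 < 1 ∧ 0 < p.2.2 ∧ p.2.2 < 1 ∧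
    Y.γ p.1.1 p.2.1 = Y.γ p.1.2 p.2.2}

open Classical in
/-- the deck transformation `h` brings the second leg to the crossing `p` in the cover -/
def Sys.lift {n : ℕ} {ι : Type} [NeZero n] (Y : Sys n ι) (T : LT n) (N : ℕ)
    (p : (ι × ι) × (ℝ × ℝ)) (h : T.V → T.V) : Prop :=
  Y.c T N p.1.1 ⌊N * p.2.1⌋₊ =
    h (if sg (Y.z N p.1.1 ⌊N * p.2.1⌋₊) = sg (Y.z N p.1.2 ⌊N * p.2.2⌋₊) then
        Y.c T N p.1.2 ⌊N * p.2.2⌋₊
      else T.r (side n (Y.γ p.1.1 p.2.1).re) (Y.c T N p.1.2 ⌊N * p.2.2⌋₊))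

/-- the legs `e` and `h f` are separated in the cover, with respect to the mesh -/
def Sys.sep {n : ℕ} {ι : Type} [NeZero n] (Y : Sys n ι) (T : LT n) (N : ℕ) (e f : ι)
    (h : T.V → T.V) : Prop :=
  ∀ k l, Y.c T N e k = h (Y.c T N f l) →
    8 * (Y.st N e k + Y.st N f l) < ‖Y.z N e k - Y.z N f l‖

/-- The mesh is fine: the steps are small in comparison with the distance to the white vertices. -/
structure Sys.Fine {n : ℕ} {ι : Type} (Y : Sys n ι) (N : ℕ) : Prop where
  big : 100 ≤ N
  small : ∀ e k (i : Fin n), 100 * ‖Y.z N e (k + 1) - Y.z N e k‖ ≤ ‖Y.z N e k - (i.val : ℂ)‖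

/-- the points number `k`, `l` of the legs `e`, `h f` are close and in the same cell of the cover only
if the legs are the same lift of the same star, or there is a crossing in this lift -/
def Sys.CloseAt {n : ℕ} {ι : Type} [NeZero n] (Y : Sys n ι) (T : LT n) (N : ℕ) (e f : ι)
    (h : Dk T) (k l : ℕ) : Prop :=
  Y.c T N e k = h.h (Y.c T N f l) → ‖Y.z N e k - Y.z N f l‖ ≤ 8 * (Y.st N e k + Y.st N f l) →
    (Y.b e = Y.b f ∧ h.h = id) ∨ ∃ s t, ((e, f), (s, t)) ∈ Y.recs ∧ Y.lift T N ((e, f), (s, t)) h.h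

/-- A mesh is good. -/
structure Sys.Good {n : ℕ} {ι : Type} [NeZero n] (Y : Sys n ι) (T : LT n) (N : ℕ) : Prop where
  fine : Y.Fine N
  close : ∀ (e f : ι) (h : Dk T) (k l : ℕ), Y.CloseAt T N e f h k l

/-- the data of the spiral part of a leg: `κ` is the first left crossing of the spiral -/
structure Sys.Spiral {n : ℕ} {ι : Type} [NeZero n] (Y : Sys n ι) (T : LT n) (N : ℕ) (e : ι)
    (κ : ℕ) : Prop where
  lo : N ≤ κ
  hi : κ < 2 * N
  left : ∀ k, N ≤ k → ((sg (Y.z N e k) = true ∧ sg (Y.z N e (k + 1)) = false) ↔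
    ∃ m, k = κ + m * N)
  posL : ∀ k, N ≤ k → sg (Y.z N e k) = true → sg (Y.z N e (k + 1)) = false →
    xr (Y.z N e k) (Y.z N e (k + 1)) < (Y.wt e).val ∧
      ((Y.wt e).val : ℝ) - Y.rad ≤ xr (Y.z N e k) (Y.z N e (k + 1))
  posR : ∀ k, N ≤ k → sg (Y.z N e k) = false → sg (Y.z N e (k + 1)) = true →
    ((Y.wt e).val : ℝ) < xr (Y.z N e k) (Y.z N e (k + 1)) ∧
      xr (Y.z N e k) (Y.z N e (k + 1)) ≤ (Y.wt e).val + Y.rad
  scal : ∀ m, xr (Y.z N e (κ + m * N)) (Y.z N e (κ + m * N + 1)) - (Y.wt e).val =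
    (xr (Y.z N e κ) (Y.z N e (κ + 1)) - (Y.wt e).val) / 2 ^ m
  cells : ∀ m, Y.c T N e (κ + m * N) =
    (fun c => T.r (Y.wt e) (T.r (lf n (Y.wt e)) c))^[m] (Y.c T N e κ)

/-- the walk `L` is made of the crossings of the real line by the sequence `z` (with first cell
`c₀`), the last one of which, number `κ`, is the end point; `ι j` is the number of the crossing `j` -/
structure Ext {n : ℕ} [NeZero n] {T : LT n} (c₀ : T.V) (z : ℕ → ℂ) (κ : ℕ) (L : Walk T)
    (ι : ℕ → ℕ) : Prop where
  last : ι L.K = κ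
  mono : ∀ j < L.K, ι j < ι (j + 1)
  flip : ∀ j ≤ L.K, sg (z (ι j)) ≠ sg (z (ι j + 1))
  all : ∀ k ≤ κ, sg (z k) ≠ sg (z (k + 1)) → ∃ j ≤ L.K, ι j = k
  hx : ∀ j ≤ L.K, L.x j = th (xr (z (ι j)) (z (ι j + 1)))
  hs : ∀ j < L.K, L.s j = side n (xr (z (ι j)) (z (ι j + 1)))
  hC : ∀ j ≤ L.K, L.C j = cell T c₀ z (ι j)
  run0 : ∀ k ≤ ι 0, cell T c₀ z k = c₀ ∧ sg (z k) = sg (z 0)
  run : ∀ j < L.K, ∀ k, ι j < k → k ≤ ι (j + 1) →
    cell T c₀ z k = cell T c₀ z (ι (j + 1)) ∧ sg (z k) = sg (z (ι (j + 1)))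

/-- the image of a walk under a deck transformation -/
def Walk.map {n : ℕ} {T : LT n} (L : Walk T) (h : Dk T) : Walk T where
  K := L.K
  C k := h.h (L.C k)
  s := L.s
  x := L.x
  step k hk := by rw [L.step k hk, h.hr]

/-- the legs of a star -/
noncomputable def Sys.legs {n : ℕ} {ι : Type} [Fintype ι] (Y : Sys n ι) (u : ℕ) : Finset ι :=
  univ.filter fun e => Y.b e = u

/-! ### Templates with crossings -/

/-- the conditions on a template, without the separation -/
structure OkT {n p : ℕ} (T : Tmpl n p) : Prop where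
  ww : ∀ i j, i ≠ j → T.w i ≠ T.w j
  wb : ∀ i k, (T.w i).2 ≠ (T.b k).2
  bb : ∀ k l, k ≠ l → (T.b k).2 ≠ (T.b l).2 ∨ (T.b k).1 + 1 < (T.b l).1 ∨ (T.b l).1 + 1 < (T.b k).1
  ow : ∀ k i j, T.N k i = true → i ≠ j →
    pos4 (fun s _ => oriZ (T.w i) (sh (T.b k) s) (T.w j)) ∨
    pos4 (fun s _ => - oriZ (T.w i) (sh (T.b k) s) (T.w j))
  ob : ∀ k l i, T.N k i = true → k ≠ l →
    pos4 (fun s t => oriZ (T.w i) (sh (T.b k) s) (sh (T.b l) t)) ∨
    pos4 (fun s t => - oriZ (T.w i) (sh (T.b k) s) (sh (T.b l) t))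

/-- the edges `i k`, `j l` of the template are separated for all positions of the black points on
their unit segments -/
def sepT {n p : ℕ} (T : Tmpl n p) (k l : Fin p) (i j : Fin n) : Bool :=
  decide ((pos4 (fun s _ => oriZ (T.w i) (sh (T.b k) s) (T.w j)) ∧
      pos4 (fun s t => oriZ (T.w i) (sh (T.b k) s) (sh (T.b l) t))) ∨
    (pos4 (fun s _ => - oriZ (T.w i) (sh (T.b k) s) (T.w j)) ∧
      pos4 (fun s t => - oriZ (T.w i) (sh (T.b k) s) (sh (T.b l) t))) ∨
    (pos4 (fun s _ => oriZ (T.w j) (sh (T.b l) s) (T.w i)) ∧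
      pos4 (fun s t => oriZ (T.w j) (sh (T.b l) s) (sh (T.b k) t))) ∨
    (pos4 (fun s _ => - oriZ (T.w j) (sh (T.b l) s) (T.w i)) ∧
      pos4 (fun s t => - oriZ (T.w j) (sh (T.b l) s) (sh (T.b k) t))))

/-- the number of crossings of a black vertex of type `k` and one of type `l`: for different types
the number of pairs of edges which are not separated; for `k = l` the number of pairs of
neighbours on the same side of the horizontal line through the black point -/
def ctb {n p : ℕ} (T : Tmpl n p) (k l : Fin p) : ℕ :=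
  if k = l then
    ((univ : Finset (Fin n × Fin n)).filter fun x => x.1 < x.2 ∧ T.N k x.1 = true ∧
      T.N k x.2 = true ∧ ((T.w x.1).2 < (T.b k).2 ↔ (T.w x.2).2 < (T.b k).2)).card
  else
    ((univ : Finset (Fin n × Fin n)).filter fun x => x.1 ≠ x.2 ∧ T.N k x.1 = true ∧
      T.N l x.2 = true ∧ sepT T k l x.1 x.2 = false).card

end Pool.Agent.H55.BQ
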