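import Pool.Agent.H55.BQ.ASM
import Pool.Agent.H55.BPL.FIN
import Pool.Agent.H38.BPQ.BRC
import Pool.Agent.H38.BPQ.KC
import Pool.Agent.H67.BQ.BT
import Pool.Agent.H42.BPQ.DKD
import Pool.Agent.H42.BPQ.DKE
import Pool.Agent.H13.BPQ.DKU
import Pool.Agent.H13.BPQ.GAT
import Pool.Agent.H13.BPQ.HOM
import Pool.Agent.H48.BQ.LN
import Pool.Agent.H48.BQ.A1
import Pool.Agent.H96.BPQ.TRE
import Pool.Agent.H63.BPQ.NX
import Pool.Agent.H63.BPQ.TG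
import Pool.Agent.H63.BPQ.XVT
import Pool.Agent.H63.BPQ.Side
import Pool.Agent.H63.BPQ.LC
import Pool.Agent.H63.BPQ.WEX
import Pool.Agent.H63.BPQ.FT
import Pool.Agent.H63.BPQ.ROT
import Pool.Agent.H63.BPQ.SCL
import Pool.Agent.H63.BPQ.FNE
import Pool.Agent.H63.BPQ.RGB
import Pool.Agent.H63.BPQ.HIT
import Pool.Agent.H63.BPQ.SLS
import Pool.Agent.H63.BPQ.TT2
import Pool.Agent.H99.BQ.TC
import Pool.Agent.H78.BPQ.XRV
import Pool.Agent.H78.BPQ.SPI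
import Pool.Agent.H20.BPQ.HC
import Pool.Agent.H20.BPQ.PR2
import Pool.Agent.H7.BPQ.NIL
import Pool.Agent.H7.BPQ.MSH
import Pool.Agent.H7.BPQ.ORD
import Pool.Agent.H7.BPQ.SYS
import Pool.Agent.H49.BPQ.RGA
import Pool.Agent.H79.BPQ.CN
import Pool.Agent.H79.BPQ.CVX
import Pool.Agent.H79.BPQ.STY
import Pool.Agent.H79.BPQ.RAD
import Pool.Agent.H79.BPQ.TRD
import Pool.Agent.H55.BPQ.PA
import Pool.Agent.H55.BPQ.DC
import Pool.Agent.H55.BPQ.STR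
import Pool.Agent.H55.BPQ.PR3
import Pool.Agent.H55.BPQ.PSM

/-!
# Biplanar drawings (MP_bacf0e_co), second part: all modules together (helper55)
-/

set_option autoImplicit false

namespace Pool.Agent.H55.BQ

open Pool.Agent.H55.BP Pool.Agent.H55.BPL

theorem bt : T_BT := Pool.Agent.H67.BQ.pf_BT
theorem wp : T_WP := Pool.Agent.H67.BQ.pf_WP
theorem dku : T_DKU := Pool.Agent.H13.BPQ.pf_DKU
theorem dkd : T_DKD := Pool.Agent.H42.BPQ.pf_DKD dku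
theorem dke : T_DKE := Pool.Agent.H42.BPQ.pf_DKE
theorem gat : T_GAT := Pool.Agent.H13.BPQ.pf_GAT bt
theorem brc : T_BRC := Pool.Agent.H38.BPQ.pf_BRC gat
theorem lnb : T_LNB := Pool.Agent.H48.BQ.pf_LNB
theorem lnf : T_LNF := Pool.Agent.H48.BQ.pf_LNF
theorem gln : T_GLN := Pool.Agent.H48.BQ.pf_GLN lnb lnf
theorem gls : T_GLS := Pool.Agent.H48.BQ.pf_GLS gln
theorem tre : T_TRE := Pool.Agent.H96.BPQ.pf_TRE
theorem nx : T_NX := Pool.Agent.H63.BPQ.pf_NX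
theorem xrv : T_XRV := Pool.Agent.H78.BPQ.pf_XRV
theorem xvt : T_XVT := Pool.Agent.H63.BPQ.pf_XVT wp
theorem tg : T_TG := Pool.Agent.H63.BPQ.pf_TG
theorem tc : T_TC := Pool.Agent.H99.BQ.pf_TC bt
theorem pa : T_PA := Pool.Agent.H55.BPQ.pf_PA nx xrv xvt tg tc
theorem hc : T_HC := Pool.Agent.H20.BPQ.pf_HC
theorem ilv' : T_ILV := Pool.Agent.H48.BQ.pf_ILV
theorem prc : T_PRC := Pool.Agent.H63.BPQ.pf_PRC
theorem sid : T_SID := Pool.Agent.H63.BPQ.pf_SID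
theorem en : T_END := Pool.Agent.H63.BPQ.pf_END
theorem sdl : T_SDL := Pool.Agent.H63.BPQ.pf_SDL
theorem lc : T_LC := Pool.Agent.H63.BPQ.pf_LC
theorem wex : T_WEX := Pool.Agent.H63.BPQ.pf_WEX
theorem nil : T_NIL := Pool.Agent.H7.BPQ.pf_NIL hc ilv' prc
theorem rot : T_ROT := Pool.Agent.H63.BPQ.pf_ROT
theorem scl : T_SCL := Pool.Agent.H63.BPQ.pf_SCL
theorem spi : T_SPI := Pool.Agent.H78.BPQ.pf_SPI rot scl sdl
theorem ft : T_FT := Pool.Agent.H63.BPQ.pf_FT rot scl sdl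
theorem fne : T_FNE := Pool.Agent.H63.BPQ.pf_FNE
theorem cpt : T_CPT := Pool.Agent.H48.BQ.pf_CPT
theorem rga : T_RGA := Pool.Agent.H49.BPQ.pf_RGA cpt lc prc dku
theorem rgb : T_RGB := Pool.Agent.H63.BPQ.pf_RGB
theorem rgc : T_RGC := Pool.Agent.H63.BPQ.pf_RGC
theorem msh : T_MSH := Pool.Agent.H7.BPQ.pf_MSH fne rga rgb rgc ft scl prc
theorem ord : T_ORD := Pool.Agent.H7.BPQ.pf_ORD sid en bt lnf dkd prc
theorem dc : T_DC := Pool.Agent.H55.BPQ.pf_DC wex nil ord pa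
theorem kc : T_KC := Pool.Agent.H38.BPQ.pf_KC dc brc dkd
theorem cn : T_CN := Pool.Agent.H79.BPQ.CN.pf_CN dku dkd dke
theorem cvx : T_CVX := Pool.Agent.H79.BPQ.pf_CVX
theorem sty : T_STY := Pool.Agent.H79.BPQ.pf_STY tre msh spi gls kc cn cvx brc dku
theorem hom : T_HOM := Pool.Agent.H13.BPQ.pf_HOM
theorem trd : T_TRD := Pool.Agent.H79.BPQ.pf_TRD
theorem rad : T_RAD := Pool.Agent.H79.BPQ.pf_RAD
theorem hit : T_HIT := Pool.Agent.H63.BPQ.pf_HIT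
theorem sys : T_SYS := Pool.Agent.H7.BPQ.pf_SYS rad hit
theorem str : T_STR := Pool.Agent.H55.BPQ.pf_STR hom trd sys sty
theorem ttc : T_TTC := Pool.Agent.H48.BQ.pf_TTC
theorem lb : T_LB := Pool.Agent.H48.BQ.pf_LB str ttc
theorem pr2 : T_PR2 := Pool.Agent.H20.BPQ.pf_PR2 sl
theorem sls : T_SLS := Pool.Agent.H63.BPQ.pf_SLS
theorem pr3 : T_PR3 := Pool.Agent.H55.BPQ.pf_PR3 sls
theorem psm : T_PSM := Pool.Agent.H55.BPQ.pf_PSM
theorem tt2 : T_TT2 := Pool.Agent.H63.BPQ.pf_TT2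

theorem val : T_VAL := val_all prm Pool.Agent.H23.BPL.pf_CNT pr2 pr3 psm lb tt2

/-- `K_{n,m}` with `min n m ≤ 8` and `n m` even has an optimal and self-complementary biplanar
drawing. -/
theorem main_all (n m : ℕ) (hn : 1 ≤ n) (hm : 1 ≤ m) (h8 : min n m ≤ 8) (h : Even (n * m)) :
    Q1 n m := main_eight prm tur Pool.Agent.H23.BPL.pf_CNT val n m hn hm h8 h

end Pool.Agent.H55.BQ
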