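import Pool.Agent.H55.BQ.FIN

/-!
# Biplanar drawings (MP_bacf0e_co), second part: the final statements (helper55)
-/

set_option autoImplicit false

open Finset

namespace Pool.Agent.H55.BQ

open Pool.Agent.H55.BP Pool.Agent.H55.BPL

/-- exchange of the colour classes -/
theorem QV.swap {n m v : ℕ} (h : QV n m v) : QV m n v := by
  obtain ⟨B, hopt, ⟨φ, h1, h2, h3⟩, hv⟩ := h
  let e : (Fin n ⊕ Fin m) ≃ (Fin m ⊕ Fin n) := Equiv.sumComm _ _
  have he : ∀ u v, (K n m).Adj u v ↔ (K m n).Adj (e u) (e v) := by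
    rintro (u | u) (v | v) <;> simp [e, K, completeBipartiteGraph]
  have he' : ∀ u v, (K m n).Adj u v ↔ (K n m).Adj (e.symm u) (e.symm v) := by
    rintro (u | u) (v | v) <;> simp [e, K, completeBipartiteGraph]
  refine ⟨transport e he B, ?_, ⟨((e.symm.trans φ).trans e), ?_, ?_, ?_⟩, ?_⟩
  · intro B'
    have h4 := hopt (transport e.symm he' B')
    rw [transport_crossings] at h4
    rw [transport_crossings]
    exact h4
  · intro u v
    change (B.G₁.comap e.symm).Adj u v ↔ (B.G₂.comap e.symm).Adj (e (φ (e.symm u)))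
      (e (φ (e.symm v)))
    rw [SimpleGraph.comap_adj, SimpleGraph.comap_adj, Equiv.symm_apply_apply,
      Equiv.symm_apply_apply]
    exact h1 _ _
  · intro v
    change B.D₂.pt (e.symm (e (φ (e.symm v)))) = B.D₁.pt (e.symm v)
    rw [Equiv.symm_apply_apply]
    exact h2 _
  · intro u v huv t ht
    change B.D₂.arc (e.symm (e (φ (e.symm u)))) (e.symm (e (φ (e.symm v)))) t =
      B.D₁.arc (e.symm u) (e.symm v) t
    rw [Equiv.symm_apply_apply, Equiv.symm_apply_apply]
    exact h3 _ _ huv t ht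
  · rw [transport_crossings]
    exact hv

theorem qv_pairs {n p : ℕ} [NeZero p] (T : Tmpl n p) (hT : T.Ok ∅) (hp : p % 2 = 0)
    (hN : ∀ k : Fin p, k.val % 2 = 0 → ∀ i, T.N (ty p (k.val + 1)) i = !T.N k i) (m : ℕ)
    (hm : Even m) : QV n m 0 := by
  obtain ⟨D, hD⟩ := prm n p T ∅ hT m
  have h0 : (same p m ∅).card = 0 := by simp [same]
  exact qv (T.adj m) (Equiv.refl _) (swp m hm)
    (fun i j => pairs_compl T.N hp hN m hm i j) D 0 (by omega) fun B => by omega

theorem qv_one {n : ℕ} (T : Tmpl n 1) (hT : T.Ok ∅) (σ : Fin n ≃ Fin n)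
    (hN : ∀ i, T.N 0 (σ i) = !T.N 0 i) (m : ℕ) : QV n m 0 := by
  obtain ⟨D, hD⟩ := prm n 1 T ∅ hT m
  have h0 : (same 1 m ∅).card = 0 := by simp [same]
  refine qv (T.adj m) σ (Equiv.refl _) ?_ D 0 (by omega) fun B => by omega
  intro i j
  have : ty 1 j.val = 0 := Subsingleton.elim _ _
  simp only [Tmpl.adj, Equiv.refl_apply, this, hN]

/-- the values for at most eight white vertices -/
theorem val_le (n m : ℕ) (hn : 1 ≤ n) (h8 : n ≤ 8) (h : Even (n * m)) :
    QV n m (2 * tt (2 * n - 4) (m * (n - 4) / 2)) := by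
  by_cases h4 : 4 ≤ n
  · exact val n m h4 h8 h
  · rw [show m * (n - 4) / 2 = 0 by rw [show n - 4 = 0 by omega]; simp, tt_zero]
    rw [Nat.even_mul] at h
    interval_cases n
    · exact qv_pairs t1 t1_ok rfl (by decide) m (h.resolve_left (by decide))
    · exact qv_one t2 t2_ok (Equiv.swap 0 1) (by decide) m
    · exact qv_pairs t3 t3_ok rfl (by decide) m (h.resolve_left (by decide))

/-- the main theorem with the values -/
theorem main_val (n m : ℕ) (hn : 1 ≤ n) (hm : 1 ≤ m) (h8 : min n m ≤ 8) (h : Even (n * m)) :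
    QV n m (2 * tt (2 * min n m - 4) (max n m * (min n m - 4) / 2)) := by
  rcases le_total n m with hle | hle
  · rw [min_eq_left hle] at h8 ⊢
    rw [max_eq_right hle]
    exact val_le n m hn h8 h
  · rw [min_eq_right hle] at h8 ⊢
    rw [max_eq_left hle]
    exact (val_le m n hm h8 (by rwa [mul_comm])).swap

end Pool.Agent.H55.BQ
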