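import Pool.Agent.H55.BQ.FIN

/-!
# Biplanar drawings (MP_bacf0e_co): the lower bound for bipartite graphs (helper55)
-/

set_option autoImplicit false

open Finset

namespace Pool.Agent.H55.BQ

open Pool.Agent.H55.BP Pool.Agent.H55.BPL

open Classical in
/-- the lower bound for biplanar drawings of bipartite graphs -/
theorem lbg (n m : ℕ) (G : SimpleGraph (Fin n ⊕ Fin m)) (B : Biplanar G) (hn : 3 ≤ n)
    (hG : G ≤ K n m) :
    2 * tt (2 * n - 4)
      ((∑ j : Fin m, ((univ.filter fun i : Fin n => G.Adj (Sum.inr j) (Sum.inl i)).card - 4)) / 2) ≤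
      B.crossings := by
  have hle1 : B.G₁ ≤ K n m := (le_sup_left.trans B.sup.le).trans hG
  have hle2 : B.G₂ ≤ K n m := (le_sup_right.trans B.sup.le).trans hG
  have s1 := str n m B.G₁ B.D₁ (by omega) hle1
  have s2 := str n m B.G₂ B.D₂ (by omega) hle2
  have hd : ∀ j : Fin m, (univ.filter fun i : Fin n => G.Adj (Sum.inr j) (Sum.inl i)).card ≤
      (univ.filter fun i : Fin n => B.G₁.Adj (Sum.inr j) (Sum.inl i)).card +
        (univ.filter fun i : Fin n => B.G₂.Adj (Sum.inr j) (Sum.inl i)).card := by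
    intro j
    refine le_trans (Finset.card_le_card ?_) (Finset.card_union_le _ _)
    intro i hi
    have h1 := (Finset.mem_filter.mp hi).2
    rw [← B.sup, SimpleGraph.sup_adj] at h1
    rw [Finset.mem_union, Finset.mem_filter, Finset.mem_filter]
    exact h1.imp (fun h => ⟨Finset.mem_univ _, h⟩) (fun h => ⟨Finset.mem_univ _, h⟩)
  set s := ∑ j : Fin m, ((univ.filter fun i : Fin n => B.G₁.Adj (Sum.inr j) (Sum.inl i)).card - 2)
    with hs
  set t := ∑ j : Fin m, ((univ.filter fun i : Fin n => B.G₂.Adj (Sum.inr j) (Sum.inl i)).card - 2)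
    with ht
  have hsum : (∑ j : Fin m,
      ((univ.filter fun i : Fin n => G.Adj (Sum.inr j) (Sum.inl i)).card - 4)) ≤ s + t := by
    rw [hs, ht, ← Finset.sum_add_distrib]
    refine Finset.sum_le_sum fun j _ => ?_
    have := hd j
    omega
  have h3 := ttc (2 * n - 4) s t ((∑ j : Fin m,
      ((univ.filter fun i : Fin n => G.Adj (Sum.inr j) (Sum.inl i)).card - 4)) / 2) (by omega)
    (by omega)
  change _ ≤ B.D₁.crossings + B.D₂.crossings
  omega

end Pool.Agent.H55.BQ
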