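import Pool.Agent.H55.BQ.Targets

/-!
# Biplanar drawings (MP_bacf0e_co), second part: geodesic drawings on the sphere (helper55)

The points are vectors of `ℝ³` up to positive factors, the edges are the arcs of great circles. The
stereographic projection from the pole `(0, 0, 1)` gives drawings in the plane.
-/

set_option autoImplicit false

open Finset Pool.Agent.H55.BP

namespace Pool.Agent.H55.BQ

/-- determinant, integers -/
def detZ (a b c : ℤ × ℤ × ℤ) : ℤ :=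
  a.1 * (b.2.1 * c.2.2 - b.2.2 * c.2.1) - a.2.1 * (b.1 * c.2.2 - b.2.2 * c.1) +
    a.2.2 * (b.1 * c.2.1 - b.2.1 * c.1)

/-- determinant, reals -/
def detR (a b c : ℝ × ℝ × ℝ) : ℝ :=
  a.1 * (b.2.1 * c.2.2 - b.2.2 * c.2.1) - a.2.1 * (b.1 * c.2.2 - b.2.2 * c.1) +
    a.2.2 * (b.1 * c.2.1 - b.2.1 * c.1)

/-- stereographic projection of the ray of `a` -/
noncomputable def phi (a : ℝ × ℝ × ℝ) : ℂ :=
  ⟨a.1 / (√(a.1 ^ 2 + a.2.1 ^ 2 + a.2.2 ^ 2) - a.2.2),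
    a.2.1 / (√(a.1 ^ 2 + a.2.1 ^ 2 + a.2.2 ^ 2) - a.2.2)⟩

/-- the arcs `a b` and `c d` cross (if no three of the four vectors are dependent) -/
def Crs (a b c d : ℝ × ℝ × ℝ) : Prop :=
  (0 < detR b c d ∧ detR a c d < 0 ∧ detR a b d < 0 ∧ 0 < detR a b c) ∨
    (detR b c d < 0 ∧ 0 < detR a c d ∧ 0 < detR a b d ∧ detR a b c < 0)

/-- the pairs of crossing edges -/
def badPairs3 {V : Type} (G : SimpleGraph V) (P : V → ℝ × ℝ × ℝ) : Set (Sym2 (Sym2 V)) :=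
  {x | ∃ a b c d, G.Adj a b ∧ G.Adj c d ∧ a ≠ c ∧ a ≠ d ∧ b ≠ c ∧ b ≠ d ∧
    x = s(s(a, b), s(c, d)) ∧ Crs (P a) (P b) (P c) (P d)}

/-- SLS: geodesic drawings. -/
def T_SLS : Prop :=
  ∀ {V : Type} [Finite V] (G : SimpleGraph V) (P : V → ℝ × ℝ × ℝ),
    (∀ u, (P u).1 ≠ 0 ∨ (P u).2.1 ≠ 0) →
    (∀ u v, u ≠ v → ∀ c : ℝ, 0 < c → P u ≠ (c * (P v).1, c * (P v).2.1, c * (P v).2.2)) →
    (∀ u v, G.Adj u v → detR (P u) (P v) (0, 0, 1) ≠ 0) →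
    (∀ u v w, G.Adj u v → w ≠ u → w ≠ v → detR (P u) (P v) (P w) ≠ 0) →
    ∃ D : Drawing G, D.crossings ≤ (badPairs3 G P).ncard

/-- A geodesic template: white points, and small segments (from `b k` to `b k + e k`) for the black
points of each of `p` types. -/
structure Tmpl3 (n p : ℕ) where
  w : Fin n → ℤ × ℤ × ℤ
  b : Fin p → ℤ × ℤ × ℤ
  e : Fin p → ℤ × ℤ × ℤ
  N : Fin p → Fin n → Bool

/-- the graph of a template with `m` black vertices -/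
def Tmpl3.adj {n p : ℕ} [NeZero p] (T : Tmpl3 n p) (m : ℕ) (i : Fin n) (j : Fin m) : Bool :=
  T.N (ty p j.val) i

/-- `a + s e` -/
def sh3 (a e : ℤ × ℤ × ℤ) (s : ℤ) : ℤ × ℤ × ℤ :=
  (a.1 + s * e.1, a.2.1 + s * e.2.1, a.2.2 + s * e.2.2)

/-- the conditions on a geodesic template -/
structure OkT3 {n p : ℕ} (T : Tmpl3 n p) : Prop where
  wz : ∀ i, (T.w i).1 ≠ 0 ∨ (T.w i).2.1 ≠ 0
  ww : ∀ i j, i ≠ j → (T.w i).1 * (T.w j).2.1 ≠ (T.w i).2.1 * (T.w j).1 ∨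
    (T.w i).1 * (T.w j).2.2 ≠ (T.w i).2.2 * (T.w j).1 ∨
    (T.w i).2.1 * (T.w j).2.2 ≠ (T.w i).2.2 * (T.w j).2.1
  nb : ∀ k, ∃ i, T.N k i = true
  sd : ∀ k i, T.N k i = true → detZ (T.w i) (T.b k) (T.e k) ≠ 0
  op : ∀ k i, T.N k i = true →
    pos4 (fun s _ => detZ (T.w i) (sh3 (T.b k) (T.e k) s) (0, 0, 1)) ∨
    pos4 (fun s _ => - detZ (T.w i) (sh3 (T.b k) (T.e k) s) (0, 0, 1))
  ow : ∀ k i j, T.N k i = true → i ≠ j →
    pos4 (fun s _ => detZ (T.w i) (sh3 (T.b k) (T.e k) s) (T.w j)) ∨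
    pos4 (fun s _ => - detZ (T.w i) (sh3 (T.b k) (T.e k) s) (T.w j))
  ob : ∀ k l i, T.N k i = true → k ≠ l →
    pos4 (fun s t => detZ (T.w i) (sh3 (T.b k) (T.e k) s) (sh3 (T.b l) (T.e l) t)) ∨
    pos4 (fun s t => - detZ (T.w i) (sh3 (T.b k) (T.e k) s) (sh3 (T.b l) (T.e l) t))

/-- the edges `i k`, `j l` of the template cross -/
def crT {n p : ℕ} (T : Tmpl3 n p) (k l : Fin p) (i j : Fin n) : Bool :=
  decide ((0 < detZ (T.b k) (T.w j) (T.b l) ∧ detZ (T.w i) (T.w j) (T.b l) < 0 ∧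
      detZ (T.w i) (T.b k) (T.b l) < 0 ∧ 0 < detZ (T.w i) (T.b k) (T.w j)) ∨
    (detZ (T.b k) (T.w j) (T.b l) < 0 ∧ 0 < detZ (T.w i) (T.w j) (T.b l) ∧
      0 < detZ (T.w i) (T.b k) (T.b l) ∧ detZ (T.w i) (T.b k) (T.w j) < 0))

/-- the number of crossings of a black vertex of type `k` and one of type `l` -/
def ctb3 {n p : ℕ} (T : Tmpl3 n p) (k l : Fin p) : ℕ :=
  if k = l then
    ((univ : Finset (Fin n × Fin n)).filter fun x => x.1 < x.2 ∧ T.N k x.1 = true ∧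
      T.N k x.2 = true ∧ (0 < detZ (T.w x.1) (T.b k) (T.e k) ↔
        0 < detZ (T.w x.2) (T.b k) (T.e k))).card
  else
    ((univ : Finset (Fin n × Fin n)).filter fun x => x.1 ≠ x.2 ∧ T.N k x.1 = true ∧
      T.N l x.2 = true ∧ crT T k l x.1 x.2 = true).card

/-- PR3: the drawings of a geodesic template. -/
def T_PR3 : Prop := ∀ (n p : ℕ) [NeZero p] (T : Tmpl3 n p), OkT3 T → ∀ m : ℕ,
  ∃ D : Drawing (BG (T.adj m)), D.crossings ≤
    ∑ x ∈ (univ : Finset (Fin m × Fin m)).filter fun x => x.1 < x.2,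
      ctb3 T (ty p x.1.val) (ty p x.2.val)

/-- PSM: periodic sums over pairs (counting for `K_{7,2q}`). -/
def T_PSM : Prop := ∀ s : ℕ → ℕ → ℕ, (∀ x y, s (x + 20) y = s x y) → (∀ x y, s x (y + 20) = s x y) →
  (∀ y < 20, ∑ x ∈ range 20, s x y = 3 * (y % 2 + 1)) →
  (∀ b < 10, ∑ x ∈ range (2 * b), s x (2 * b) + ∑ x ∈ range (2 * b + 1), s x (2 * b + 1) =
    3 * b / 10 + (3 * b + 1) / 10 + (3 * b + 2) / 10) →
  ∀ q : ℕ, (∑ x ∈ (univ : Finset (Fin (2 * q) × Fin (2 * q))).filter fun x => x.1 < x.2,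
    s x.1.val x.2.val) = tt 10 (3 * q)

end Pool.Agent.H55.BQ
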