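import Pool.Agent.H55.BQ.Defs

/-!
# Biplanar drawings (MP_bacf0e_co), second part: targets (helper55)

Every `T_X` is a proposition to be proved in a module of its own. See `Defs.lean`.
-/

set_option autoImplicit false

open Finset Pool.Agent.H55.BP

namespace Pool.Agent.H55.BQ

/-! ## A. The tree -/

/-- TRE: the tree exists (reduced words). -/
def T_TRE : Prop := ∀ n : ℕ, 0 < n → Nonempty (LT n)

/-- DKU: a deck transformation is determined by one value. -/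
def T_DKU : Prop := ∀ {n : ℕ} (T : LT n) (h h' : T.V → T.V), (∀ i x, h (T.r i x) = T.r i (h x)) →
  (∀ i x, h' (T.r i x) = T.r i (h' x)) → ∀ c, h c = h' c → h = h'

/-- DKD: deck transformations are bijective and respect directions. -/
def T_DKD : Prop := ∀ {n : ℕ} (T : LT n) (h : Dk T), Function.Bijective h.h ∧
  ∀ c e, T.dir (h.h c) (h.h e) = T.dir c e

/-- DKE: deck transformations exist. -/
def T_DKE : Prop := ∀ {n : ℕ} (T : LT n) (c e : T.V), T.par c = T.par e → ∃ h : Dk T, h.h c = e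

/-- BT: betweenness. -/
def T_BT : Prop := ∀ {n : ℕ} (T : LT n) (g c e : T.V), g ≠ c → g ≠ e → T.dir g c ≠ T.dir g e →
  T.dir c e = T.dir c g

/-- WP: the crossings of a walk seen from a cell `c`. -/
def T_WP : Prop := ∀ {n : ℕ} (T : LT n) [DecidableEq T.V] (L : Walk T) (lam : Fin n) (c : T.V)
  (g : ℕ → ZMod 2), inc L lam (fun c' a => if c' = c then g a else 0) =
    g (dval lam (T.dir c (L.C L.K))) +
      (match T.dir c (L.C 0) with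
        | some s => g (2 * s.val)
        | none => 0)

/-- GAT: the gate. -/
def T_GAT : Prop := ∀ {n : ℕ} (T : LT n) {ι : Type} [DecidableEq ι] (E : ι → T.V) (S : Finset ι)
  (a : ι) (lf' : ι → Fin n), a ∉ S → 2 ≤ S.card →
  (∀ b ∈ insert a S, ∀ b' ∈ insert a S, b ≠ b' → T.dir (E b) (E b') = some (lf' b)) →
  ∃ g δ, T.dir g (E a) = some δ ∧ (∀ b ∈ S, T.dir g (E b) ≠ none ∧ T.dir g (E b) ≠ some δ) ∧
    (∃ b ∈ S, ∃ b' ∈ S, T.dir g (E b) ≠ T.dir g (E b')) ∧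
    ∀ c, c ≠ g → (∃ b ∈ S, T.dir c (E a) = T.dir c (E b)) ∨
      (∀ b ∈ S, ∀ b' ∈ S, T.dir c (E b) = T.dir c (E b'))

/-- BRC: the number of branches. -/
def T_BRC : Prop := ∀ {n : ℕ} (T : LT n) {ι : Type} [DecidableEq ι] (E : ι → T.V) (S : Finset ι)
  (lf' : ι → Fin n), (∀ b ∈ S, ∀ b' ∈ S, b ≠ b' → T.dir (E b) (E b') = some (lf' b)) →
  (Br T E S).Finite ∧ (Br T E S).ncard = S.card - 2

/-- LNB: a line is left behind. -/
def T_LNB : Prop := ∀ {n : ℕ} (T : LT n) (R L : Fin n), L ≠ R → ∀ b c : T.V,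
  ∃ M₀, ∀ M, M₀ ≤ M → T.dir ((fun x => T.r R (T.r L x))^[M] b) c = some R

/-- LNF: a line goes on. -/
def T_LNF : Prop := ∀ {n : ℕ} (T : LT n) (R L : Fin n), L ≠ R → ∀ (c : T.V) (k : ℕ), 0 < k →
  T.dir c ((fun x => T.r R (T.r L x))^[k] c) = some L

/-- GLN: two lines around different white vertices. -/
def T_GLN : Prop := ∀ {n : ℕ} (T : LT n) (R L R' L' : Fin n), L ≠ R → L' ≠ R' →
  ¬ ((L = L' ∨ L = R') ∧ (R = L' ∨ R = R')) → ∀ b b' : T.V,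
  ∃ M₀, ∀ M, M₀ ≤ M →
    T.dir ((fun x => T.r R (T.r L x))^[M] b) ((fun x => T.r R' (T.r L' x))^[M] b') = some R

/-! ## B. The parity argument -/

/-- NX: no interleaving pieces: the crossing form vanishes. -/
def T_NX : Prop := ∀ {n : ℕ} (T : LT n) (L M : Fin 3 → Walk T),
  (∀ a b, (L a).C 0 = (L b).C 0) → (∀ a b, (M a).C 0 = (M b).C 0) → NI L M → ∀ a a' b b',
  XR (L a) (M b) + XR (L a) (M b') + XR (L a') (M b) + XR (L a') (M b') = 0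

/-- XRV: from coordinates to values. -/
def T_XRV : Prop := ∀ {n : ℕ} (T : LT n) (L M : Fin 3 → Walk T) (lam mu : Fin 3 → Fin n),
  Ord3 L M lam mu → ∀ a b, a ≠ b → XR (L a) (M b) = XV (L a) (M b) (lam a) (mu b)

/-- XVT: the sum over the cells. -/
def T_XVT : Prop := ∀ {n : ℕ} (T : LT n) [DecidableEq T.V] (L M : Fin 3 → Walk T)
  (lam mu : Fin 3 → Fin n), (∀ a b, (L a).C 0 = (L b).C 0) → (∀ a b, (M a).C 0 = (M b).C 0) →
  ∃ F : Finset T.V, ∀ F' : Finset T.V, F ⊆ F' →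
    (∑ a : Fin 3, ∑ b : Fin 3, if a ≠ b then XV (L a) (M b) (lam a) (mu b) else 0) =
    ∑ c ∈ F', ∑ a : Fin 3, ∑ b : Fin 3,
      (if a ≠ b ∧ dval (mu b) (T.dir c ((M b).C (M b).K)) < dval (lam a) (T.dir c ((L a).C (L a).K))
        then 1 else 0 : ZMod 2)

/-- TG: the term of the common branch. -/
def T_TG : Prop := ∀ {n : ℕ} (T : LT n) (E F : Fin 3 → T.V) (lam mu : Fin 3 → Fin n) (g : T.V)
  (d d' : Fin 3 → Fin n), StrictMono d → StrictMono d' → d 1 = d' 1 →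
  (∀ a, T.dir g (E a) = some (d a)) → (∀ a, T.dir g (F a) = some (d' a)) →
  (∑ a : Fin 3, ∑ b : Fin 3,
    (if a ≠ b ∧ dval (mu b) (T.dir g (F b)) < dval (lam a) (T.dir g (E a)) then 1 else 0 : ZMod 2)) =
    1

/-- TC: the terms of the other cells. -/
def T_TC : Prop := ∀ {n : ℕ} (T : LT n) (E F : Fin 3 → T.V) (lam mu : Fin 3 → Fin n) (g : T.V)
  (d d' : Fin 3 → Fin n), StrictMono d → StrictMono d' → d 1 = d' 1 →
  (∀ a, T.dir g (E a) = some (d a)) → (∀ a, T.dir g (F a) = some (d' a)) → ∀ c, c ≠ g →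
  (∑ a : Fin 3, ∑ b : Fin 3,
    (if a ≠ b ∧ dval (mu b) (T.dir c (F b)) < dval (lam a) (T.dir c (E a)) then 1 else 0 : ZMod 2)) =
    0

/-- PA: the parity argument. -/
def T_PA : Prop := ∀ {n : ℕ} (T : LT n) (L M : Fin 3 → Walk T) (lam mu : Fin 3 → Fin n),
  (∀ a b, (L a).C 0 = (L b).C 0) → (∀ a b, (M a).C 0 = (M b).C 0) → NI L M → Ord3 L M lam mu →
  ∀ (g : T.V) (d d' : Fin 3 → Fin n), StrictMono d → StrictMono d' → d 1 = d' 1 →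
  (∀ a, T.dir g ((L a).C (L a).K) = some (d a)) → (∀ a, T.dir g ((M a).C (M a).K) = some (d' a)) →
  False

/-! ## C. Sequences of points -/

/-- HC: paths in a half plane with interleaving ends meet (discrete version). -/
def T_HC : Prop := ∀ (K L : ℕ) (w w' : ℕ → ℂ) (σ : Bool) (a b c d : ℝ), w 0 = a → w K = b →
  w' 0 = c → w' L = d → (∀ k ≤ K, if σ then 0 ≤ (w k).im else (w k).im ≤ 0) →
  (∀ k ≤ L, if σ then 0 ≤ (w' k).im else (w' k).im ≤ 0) →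
  (∀ k < K, ∀ l ≤ L, 2 * ‖w (k + 1) - w k‖ < ‖w k - w' l‖) →
  (∀ k ≤ K, ∀ l < L, 2 * ‖w' (l + 1) - w' l‖ < ‖w k - w' l‖) → ilv a b c d = false

/-- ILV: the coordinate `th` on the circle. -/
def T_ILV : Prop := ∀ a b c d : ℝ, a ≠ 0 → b ≠ 0 → c ≠ 0 → d ≠ 0 →
  ilv (th a) (th b) (th c) (th d) = ilv a b c d

/-- SID: the order of the sides. -/
def T_SID : Prop := ∀ (n : ℕ) [NeZero n] (x y : ℝ), (∀ i : Fin n, x ≠ i.val) →
  (∀ i : Fin n, y ≠ i.val) → side n x < side n y → th x < th y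

/-- END: the position of an end point just on the left of the white vertex `i`. -/
def T_END : Prop := ∀ (n : ℕ) [NeZero n] (i : Fin n) (x y : ℝ), 2 ≤ n → (i.val : ℝ) - 1 / 4 < x →
  x < i.val → (∀ j : Fin n, y ≠ j.val) → ¬ (x ≤ y ∧ y < i.val) →
  (side n y ≤ lf n i → th y < th x) ∧ (lf n i < side n y → th x < th y)

/-- SDL: the sides next to a white vertex. -/
def T_SDL : Prop := ∀ (n : ℕ) [NeZero n] (i : Fin n) (x : ℝ), 2 ≤ n →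
  ((i.val : ℝ) - 1 / 2 < x → x < i.val → side n x = lf n i) ∧
  ((i.val : ℝ) < x → x < i.val + 1 / 2 → side n x = i)

/-- PRC: the parity of the cells. -/
def T_PRC : Prop := ∀ {n : ℕ} [NeZero n] (T : LT n) (c₀ : T.V) (z : ℕ → ℂ), T.par c₀ = sg (z 0) →
  ∀ k, T.par (cell T c₀ z k) = sg (z k)

/-- LC: local constancy of the cells. -/
def T_LC : Prop := ∀ {n : ℕ} [NeZero n] (T : LT n) (c₀ : T.V) (z : ℕ → ℂ) (q : ℂ) (ρ : ℝ),
  (∀ i : Fin n, 2 * ρ ≤ ‖q - (i.val : ℂ)‖) → ∀ k l, k ≤ l → (∀ j, k ≤ j → j ≤ l → ‖z j - q‖ < ρ) →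
  cell T c₀ z l = if sg (z k) = sg (z l) then cell T c₀ z k else
    T.r (side n q.re) (cell T c₀ z k)

/-- WEX: a sequence of points gives a walk. -/
def T_WEX : Prop := ∀ {n : ℕ} [NeZero n] (T : LT n) (c₀ : T.V) (z : ℕ → ℂ) (κ : ℕ),
  sg (z κ) ≠ sg (z (κ + 1)) → ∃ (L : Walk T) (ι : ℕ → ℕ), Ext c₀ z κ L ι

/-- NIL: separated legs do not interleave. -/
def T_NIL : Prop := ∀ {n : ℕ} [NeZero n] (T : LT n) {ι : Type} (Y : Sys n ι) (N : ℕ), Y.Fine N →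
  ∀ (e f : Fin 3 → ι) (h : Dk T), (∀ a b, Y.b (e a) = Y.b (e b)) →
  (∀ a b, Y.b (f a) = Y.b (f b)) → (∀ a b, Y.sep T N (e a) (f b) h.h) →
  ∀ (κ κ' : Fin 3 → ℕ) (L M : Fin 3 → Walk T) (j j' : Fin 3 → ℕ → ℕ),
  (∀ a, Ext (cell0 T (Y.γ (e a) 0)) (Y.z N (e a)) (κ a) (L a) (j a)) →
  (∀ a, Ext (cell0 T (Y.γ (f a) 0)) (Y.z N (f a)) (κ' a) (M a) (j' a)) →
  NI L fun a => (M a).map h

/-! ## D. The spirals -/

/-- ROT: the crossings of the real line by a discrete spiral. -/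
def T_ROT : Prop := ∀ (N : ℕ) (a : ℂ) (u : ℕ → ℂ), 100 ≤ N → a ≠ 0 →
  (∀ k, u k = a * Complex.exp (((k / N : ℝ) : ℂ) * (2 * Real.pi * Complex.I - Real.log 2))) →
  ∃ κ κ', κ < N ∧ κ' < N ∧
    (∀ k, (0 ≤ (u k).im ∧ (u (k + 1)).im < 0) ↔ ∃ m, k = κ + m * N) ∧
    (∀ k, ((u k).im < 0 ∧ 0 ≤ (u (k + 1)).im) ↔ ∃ m, k = κ' + m * N) ∧
    (∀ k, 0 ≤ (u k).im → (u (k + 1)).im < 0 → (u k).re < 0 ∧ (u (k + 1)).re < 0) ∧
    (∀ k, (u k).im < 0 → 0 ≤ (u (k + 1)).im → 0 < (u k).re ∧ 0 < (u (k + 1)).re)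

/-- SPI: the spiral data exist. -/
def T_SPI : Prop := ∀ {n : ℕ} [NeZero n] (T : LT n) {ι : Type} (Y : Sys n ι) (N : ℕ), 2 ≤ n →
  Y.Fine N → ∀ e, ∃ κ, Y.Spiral T N e κ

/-- FT: the cells after a full turn. -/
def T_FT : Prop := ∀ {n : ℕ} [NeZero n] (T : LT n) {ι : Type} (Y : Sys n ι) (N : ℕ), 2 ≤ n →
  Y.Fine N → ∀ e k, N ≤ k → Y.c T N e (k + N) =
    if sg (Y.z N e k) then T.r (Y.wt e) (T.r (lf n (Y.wt e)) (Y.c T N e k))
    else T.r (lf n (Y.wt e)) (T.r (Y.wt e) (Y.c T N e k))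

/-- SCL: the spiral is self-similar. -/
def T_SCL : Prop := ∀ {n : ℕ} {ι : Type} (Y : Sys n ι) (N : ℕ), 0 < N → ∀ e k m, N ≤ k →
  Y.z N e (k + m * N) - ((Y.wt e).val : ℂ) = (Y.z N e k - ((Y.wt e).val : ℂ)) / 2 ^ m

/-! ## E. The mesh -/

/-- FIN: all fine enough meshes are fine. -/
def T_FNE : Prop := ∀ {n : ℕ} {ι : Type} [Finite ι] (Y : Sys n ι), ∃ N₀, ∀ N, N₀ ≤ N → Y.Fine N

/-- CPT: compactness. -/
def T_CPT : Prop := ∀ (f g : ℝ → ℂ) (A : ℝ), 0 < A → ContinuousOn f (Set.Icc 0 A) →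
  ContinuousOn g (Set.Icc 0 A) → ∀ ω > 0, ∃ κ > 0, ∀ s ∈ Set.Icc 0 A, ∀ t ∈ Set.Icc 0 A,
  ‖f s - g t‖ ≤ κ → ∃ s' ∈ Set.Icc 0 A, ∃ t' ∈ Set.Icc 0 A, f s' = g t' ∧ |s - s'| ≤ ω ∧ |t - t'| ≤ ω

/-- RGA: close points with `k, l ≤ 3 N`. -/
def T_RGA : Prop := ∀ {n : ℕ} [NeZero n] (T : LT n) {ι : Type} [Finite ι] (Y : Sys n ι),
  ∃ N₀, ∀ N, N₀ ≤ N → ∀ (e f : ι) (h : Dk T) (k l : ℕ), k ≤ 3 * N → l ≤ 3 * N →
    Y.CloseAt T N e f h k l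

/-- RGB: one of the points is deep in the spiral. -/
def T_RGB : Prop := ∀ {n : ℕ} {ι : Type} (Y : Sys n ι) (N : ℕ), Y.Fine N → ∀ (e f : ι) (k l : ℕ),
  k ≤ 2 * N → 3 * N < l → 8 * (Y.st N e k + Y.st N f l) < ‖Y.z N e k - Y.z N f l‖

/-- RGC: both points are deep in the spirals, far from each other. -/
def T_RGC : Prop := ∀ {n : ℕ} {ι : Type} (Y : Sys n ι) (N : ℕ), Y.Fine N → ∀ (e f : ι) (k l : ℕ),
  2 * N < k → 2 * N < l → (Y.wt e ≠ Y.wt f ∨ k + N ≤ l ∨ l + N ≤ k) →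
  8 * (Y.st N e k + Y.st N f l) < ‖Y.z N e k - Y.z N f l‖

/-- MSH: there is a good mesh. -/
def T_MSH : Prop := ∀ {n : ℕ} [NeZero n] (T : LT n) {ι : Type} [Finite ι] (Y : Sys n ι), 2 ≤ n →
  ∃ N, Y.Good T N

/-! ## F. The main inequality -/

/-- GLS: deep ends are leaves. -/
def T_GLS : Prop := ∀ {n : ℕ} [NeZero n] (T : LT n) {ι : Type} [Finite ι] (Y : Sys n ι) (N : ℕ)
  (κ : ι → ℕ), 3 ≤ n → (∀ e, Y.Spiral T N e (κ e)) → ∃ M₀, ∀ M, M₀ ≤ M → ∀ e f, e ≠ f →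
  Y.b e = Y.b f → T.dir (Y.c T N e (κ e + M * N)) (Y.c T N f (κ f + M * N)) = some (Y.wt e)

/-- ORD: the order conditions. -/
def T_ORD : Prop := ∀ {n : ℕ} [NeZero n] (T : LT n) {ι : Type} (Y : Sys n ι) (N : ℕ), 3 ≤ n →
  Y.Fine N → ∀ (e f : Fin 3 → ι) (h : Dk T) (κ κ' : Fin 3 → ℕ) (M : ℕ), 1 ≤ M →
  (∀ a, Y.Spiral T N (e a) (κ a)) → (∀ a, Y.Spiral T N (f a) (κ' a)) →
  (∀ a b, a ≠ b → T.dir (Y.c T N (e a) (κ a + M * N)) (Y.c T N (e b) (κ b + M * N)) =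
    some (Y.wt (e a))) →
  (∀ a b, a ≠ b → T.dir (Y.c T N (f a) (κ' a + M * N)) (Y.c T N (f b) (κ' b + M * N)) =
    some (Y.wt (f a))) →
  ∀ (L L' : Fin 3 → Walk T) (j j' : Fin 3 → ℕ → ℕ),
  (∀ a, Ext (cell0 T (Y.γ (e a) 0)) (Y.z N (e a)) (κ a + M * N) (L a) (j a)) →
  (∀ a, Ext (cell0 T (Y.γ (f a) 0)) (Y.z N (f a)) (κ' a + M * N) (L' a) (j' a)) →
  ∀ (g : T.V) (d d' : Fin 3 → Fin n), StrictMono d → StrictMono d' → d 1 = d' 1 →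
  (∀ a, T.dir g (Y.c T N (e a) (κ a + M * N)) = some (d a)) →
  (∀ a, T.dir g (h.h (Y.c T N (f a) (κ' a + M * N))) = some (d' a)) →
  Ord3 L (fun a => (L' a).map h) (fun a => lf n (Y.wt (e a))) (fun a => lf n (Y.wt (f a)))

/-- DC: separated stars have no common branch. -/
def T_DC : Prop := ∀ {n : ℕ} [NeZero n] (T : LT n) {ι : Type} (Y : Sys n ι) (N : ℕ), 3 ≤ n →
  Y.Fine N → ∀ (e f : Fin 3 → ι) (h : Dk T) (κ κ' : Fin 3 → ℕ) (M : ℕ), 1 ≤ M →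
  (∀ a b, Y.b (e a) = Y.b (e b)) → (∀ a b, Y.b (f a) = Y.b (f b)) →
  (∀ a b, Y.sep T N (e a) (f b) h.h) →
  (∀ a, Y.Spiral T N (e a) (κ a)) → (∀ a, Y.Spiral T N (f a) (κ' a)) →
  (∀ a b, a ≠ b → T.dir (Y.c T N (e a) (κ a + M * N)) (Y.c T N (e b) (κ b + M * N)) =
    some (Y.wt (e a))) →
  (∀ a b, a ≠ b → T.dir (Y.c T N (f a) (κ' a + M * N)) (Y.c T N (f b) (κ' b + M * N)) =
    some (Y.wt (f a))) →
  ∀ (g : T.V) (d d' : Fin 3 → Fin n), StrictMono d → StrictMono d' → d 1 = d' 1 →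
  (∀ a, T.dir g (Y.c T N (e a) (κ a + M * N)) = some (d a)) →
  (∀ a, T.dir g (h.h (Y.c T N (f a) (κ' a + M * N))) = some (d' a)) → False

/-- KC: the common branches of two stars in a lift are at most as many as the crossings in it. -/
def T_KC : Prop := ∀ {n : ℕ} [NeZero n] (T : LT n) {ι : Type} [Fintype ι] [DecidableEq ι]
  (Y : Sys n ι) (N : ℕ) (κ : ι → ℕ) (M : ℕ), 3 ≤ n → 1 ≤ M → Y.Good T N → Y.recs.Finite →
  (∀ e, Y.Spiral T N e (κ e)) →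
  (∀ e f, e ≠ f → Y.b e = Y.b f →
    T.dir (Y.c T N e (κ e + M * N)) (Y.c T N f (κ f + M * N)) = some (Y.wt e)) →
  ∀ (u v : ℕ) (h : Dk T), ¬ (u = v ∧ h.h = id) →
  {p | p ∈ Br T (fun e => Y.c T N e (κ e + M * N)) (Y.legs u) ∧
    ∃ q ∈ Br T (fun e => Y.c T N e (κ e + M * N)) (Y.legs v), h.h q.1 = p.1 ∧ q.2 = p.2}.ncard ≤
  {p | p ∈ Y.recs ∧ Y.b p.1.1 = u ∧ Y.b p.1.2 = v ∧ Y.lift T N p h.h}.ncard

/-- CN: counting the pairs of branches by deck transformations. -/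
def T_CN : Prop := ∀ {n : ℕ} (T : LT n) [DecidableEq T.V] (U : Finset ℕ)
  (B : ℕ → Finset (T.V × Fin n)) {R : Type} (rs : Finset R) (pu pv : R → ℕ)
  (lft : R → (T.V → T.V) → Prop), (∀ r ∈ rs, ∀ h h' : Dk T, lft r h.h → lft r h'.h → h.h = h'.h) →
  (∀ u ∈ U, ∀ v ∈ U, ∀ h : Dk T, ¬ (u = v ∧ h.h = id) →
    {p | p ∈ B u ∧ ∃ q ∈ B v, h.h q.1 = p.1 ∧ q.2 = p.2}.ncard ≤
    {r | r ∈ rs ∧ pu r = u ∧ pv r = v ∧ lft r h.h}.ncard) →
  ∑ i : Bool × Fin n, (∑ u ∈ U, ((B u).filter fun p => (T.par p.1, p.2) = i).card) *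
    ((∑ u ∈ U, ((B u).filter fun p => (T.par p.1, p.2) = i).card) - 1) ≤ rs.card

/-- CVX: convexity. -/
def T_CVX : Prop := ∀ {I : Type} (s : Finset I) (α : ℕ) (k : I → ℕ), s.card = α → 0 < α →
  2 * tt α (∑ i ∈ s, k i) ≤ ∑ i ∈ s, k i * (k i - 1)

/-- STY: the lower bound for systems. -/
def T_STY : Prop := ∀ {n : ℕ} [NeZero n] {ι : Type} [Fintype ι] [DecidableEq ι] (Y : Sys n ι),
  3 ≤ n → Y.recs.Finite → ∀ U : Finset ℕ,
  2 * tt (2 * n - 4) (∑ u ∈ U, ((Y.legs u).card - 2)) ≤ Y.recs.ncard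

/-! ## G. From drawings to systems -/

/-- HOM: a homeomorphism of the plane which moves given points to `0, ..., n - 1`. -/
def T_HOM : Prop := ∀ (n : ℕ) (p : Fin n → ℂ), Function.Injective p →
  ∃ f : ℂ ≃ₜ ℂ, ∀ i, f (p i) = (i.val : ℂ)

/-- TRD: the image of a drawing under a homeomorphism. -/
def T_TRD : Prop := ∀ {V : Type} (G : SimpleGraph V) (D : Drawing G) (f : ℂ ≃ₜ ℂ),
  ∃ D' : Drawing G, (∀ v, D'.pt v = f (D.pt v)) ∧ D'.crossings = D.crossings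

/-- RAD: the radius of the discs around the white vertices. -/
def T_RAD : Prop := ∀ (n m : ℕ) (G : SimpleGraph (Fin n ⊕ Fin m)) (D : Drawing G), G ≤ K n m →
  (∀ i : Fin n, D.pt (Sum.inl i) = (i.val : ℂ)) → ∃ ρ : ℝ, 0 < ρ ∧ ρ < 1 / 4 ∧
    (∀ (i : Fin n) (j : Fin m), ρ < ‖D.pt (Sum.inr j) - (i.val : ℂ)‖) ∧
    (∀ (i i' : Fin n) (j : Fin m), G.Adj (Sum.inr j) (Sum.inl i) → i ≠ i' →
      ∀ t ∈ Set.Icc (0 : ℝ) 1, ρ < ‖D.arc (Sum.inr j) (Sum.inl i) t - (i'.val : ℂ)‖) ∧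
    ∀ x ∈ crossSet G D.arc, ∀ i : Fin n, ρ < ‖x.2 - (i.val : ℂ)‖

/-- HIT: first hitting times. -/
def T_HIT : Prop := ∀ (f : ℝ → ℂ) (p : ℂ) (ρ : ℝ), ContinuousOn f (Set.Icc 0 1) → 0 < ρ →
  ρ < ‖f 0 - p‖ → f 1 = p → ∃ τ, 0 < τ ∧ τ < 1 ∧ ‖f τ - p‖ = ρ ∧ ∀ t, 0 ≤ t → t < τ → ρ < ‖f t - p‖

/-- SYS: the system of legs of a drawing. -/
def T_SYS : Prop := ∀ (n m : ℕ) (G : SimpleGraph (Fin n ⊕ Fin m)) (D : Drawing G), G ≤ K n m →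
  (∀ i : Fin n, D.pt (Sum.inl i) = (i.val : ℂ)) →
  ∃ Y : Sys n {e : Fin m × Fin n // G.Adj (Sum.inr e.1) (Sum.inl e.2)},
    (∀ e, Y.b e = e.val.1.val ∧ Y.wt e = e.val.2) ∧ Y.recs.Finite ∧
      Y.recs.ncard ≤ 2 * D.crossings

open Classical in
/-- STR: the lower bound for drawings. -/
def T_STR : Prop := ∀ (n m : ℕ) (G : SimpleGraph (Fin n ⊕ Fin m)) (D : Drawing G), 3 ≤ n →
  G ≤ K n m →
  tt (2 * n - 4)
    (∑ j : Fin m, ((univ.filter fun i : Fin n => G.Adj (Sum.inr j) (Sum.inl i)).card - 2)) ≤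
  D.crossings

/-- TTC: convexity of `tt`. -/
def T_TTC : Prop := ∀ α s t u : ℕ, 0 < α → 2 * u ≤ s + t → 2 * tt α u ≤ tt α s + tt α t

/-- LB: the lower bound for biplanar drawings. -/
def T_LB : Prop := ∀ (n m u : ℕ) (B : Biplanar (K n m)), 4 ≤ n → 2 * u ≤ m * (n - 4) →
  2 * tt (2 * n - 4) u ≤ B.crossings

/-! ## H. Drawings -/

/-- PR2: the drawings of a template with crossings. -/
def T_PR2 : Prop := ∀ (n p : ℕ) [NeZero p] (T : Tmpl n p), OkT T → ∀ m : ℕ,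
  ∃ D : Drawing (BG (T.adj m)), D.crossings ≤
    ∑ x ∈ (univ : Finset (Fin m × Fin m)).filter fun x => x.1 < x.2,
      ctb T (ty p x.1.val) (ty p x.2.val)

/-- TT2: twice as many objects with twice as many colours. -/
def T_TT2 : Prop := ∀ p m : ℕ, 0 < p → 2 * tt p m = tt (2 * p) (2 * m)

end Pool.Agent.H55.BQ
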